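import Pool.Agent.H58.PF.Targets

/-!
# Module AMA: amalgamation
-/

set_option autoImplicit false

open Topology Cardinal

namespace Pool.Agent.H58.PF

open Pool.Agent.H20.SL Pool.Agent.H64.AK Pool.Agent.H64.AG Pool.Agent.H60.CP

theorem ama : T_AMA := by
  classical
  intro W U ι _ E r 𝓗 B s p t₀ ht₀ hp hsp hw
  have hsG := s.2
  have hpG := p.2
  have hmdl : ∀ t ∈ s.1.nodes ∪ p.1.nodes,
      Mdl E r 𝓗 (Ran E t.1) ∧ KN E r 𝓗 (Ran E t.1) t.2 := by
    intro t ht
    rcases Finset.mem_union.1 ht with h | h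
    · exact hsG.mdl t h
    · exact hpG.mdl t h
  have hmix : ∀ t ∈ s.1.nodes, ∀ w ∈ p.1.nodes, t = w ∨ Below E t w ∨ Below E w t := by
    intro t ht w hwp
    rcases hsG.chain t ht t₀ ht₀ with h | h | h
    · right
      right
      rw [h]
      exact hp w hwp
    · exact hpG.chain t (hsp t ht h) w hwp
    · right
      right
      exact below_trans (hsG.mdl t ht).1 (hp w hwp) h
  have hgood : Good E r 𝓗 B ⟨s.1.nodes ∪ p.1.nodes, s.1.prom ∪ p.1.prom⟩ := by
    refine ⟨hmdl, ?_, ?_, ?_, ?_⟩
    · intro a ha b hb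
      rcases Finset.mem_union.1 ha with ha | ha <;> rcases Finset.mem_union.1 hb with hb | hb
      · exact hsG.chain a ha b hb
      · exact hmix a ha b hb
      · rcases hmix b hb a ha with h | h | h
        · exact Or.inl h.symm
        · exact Or.inr (Or.inr h)
        · exact Or.inr (Or.inl h)
      · exact hpG.chain a ha b hb
    · intro u hu
      rcases Finset.mem_union.1 hu with hu | hu
      · obtain ⟨⟨t, ht, hE⟩, h⟩ := hsG.pnt u hu
        exact ⟨⟨t, Finset.mem_union_left _ ht, hE⟩, h⟩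
      · obtain ⟨⟨t, ht, hE⟩, h⟩ := hpG.pnt u hu
        exact ⟨⟨t, Finset.mem_union_right _ ht, hE⟩, h⟩
    · intro u hu b hb
      rcases Finset.mem_union.1 hu with hu | hu
      · obtain ⟨⟨t, ht, hE⟩, h⟩ := hsG.bot u hu b hb
        exact ⟨⟨t, Finset.mem_union_left _ ht, hE⟩, h⟩
      · obtain ⟨⟨t, ht, hE⟩, h⟩ := hpG.bot u hu b hb
        exact ⟨⟨t, Finset.mem_union_right _ ht, hE⟩, h⟩
    · intro u hu t ht hA hlt
      rcases Finset.mem_union.1 hu with hu | hu <;> rcases Finset.mem_union.1 ht with ht | ht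
      · exact hsG.keep u hu t ht hA hlt
      · -- a promise of `s` and a node of `p`
        by_cases hts : t ∈ s.1.nodes
        · exact hsG.keep u hu t hts hA hlt
        obtain ⟨h1, h2⟩ := hw t ht hts
        have hlt0 : r t.2 < r t₀.2 := below_rank (hsG.mdl t₀ ht₀).2 (hp t ht)
        refine h2 u hu ?_ ?_
        · intro b hb
          exact (hA b hb).trans hlt0
        · obtain ⟨⟨v, hv, hvE⟩, -⟩ := hsG.pnt u hu
          by_contra hcon
          push Not at hcon
          have h3 : Below E v t₀ := (hsG.below_iff hv ht₀).2 (by rw [hvE]; exact hcon)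
          have h4 := below_rank (hpG.mdl t ht).2 (h1 v hv h3)
          rw [hvE] at h4
          exact absurd hlt (not_lt.2 h4.le)
      · -- a promise of `p` and a node of `s`
        rcases hsG.chain t ht t₀ ht₀ with h | h | h
        · obtain ⟨⟨v, hv, hvE⟩, -⟩ := hpG.pnt u hu
          have h1 : r v.2 < r t₀.2 := below_rank (hsG.mdl t₀ ht₀).2 (hp v hv)
          rw [hvE] at h1
          rw [h] at hlt
          exact absurd hlt (not_lt.2 h1.le)
        · exact hpG.keep u hu t (hsp t ht h) hA hlt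
        · obtain ⟨⟨v, hv, hvE⟩, -⟩ := hpG.pnt u hu
          have h1 : r v.2 < r t₀.2 := below_rank (hsG.mdl t₀ ht₀).2 (hp v hv)
          have h2 : r t₀.2 < r t.2 := below_rank (hsG.mdl t ht).2 h
          rw [hvE] at h1
          exact absurd hlt (not_lt.2 (h1.trans h2).le)
      · exact hpG.keep u hu t ht hA hlt
  exact ⟨⟨_, hgood⟩, ⟨Finset.subset_union_left, Finset.subset_union_left⟩,
    ⟨Finset.subset_union_right, Finset.subset_union_right⟩⟩

end Pool.Agent.H58.PF
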