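import Pool.Agent.H58.PF.Defs

/-!
# Basic facts
-/

set_option autoImplicit false

open Topology Cardinal

namespace Pool.Agent.H58.PF

open Pool.Agent.H20.SL Pool.Agent.H64.AK Pool.Agent.H64.AG Pool.Agent.H60.CP

section
variable {W U ι : Type}

theorem pts_sgl (H : Set W) : pts (sgl H) = H := by
  ext w
  constructor
  · rintro ⟨v, hv, hE⟩
    have : w = v := by simpa using hE
    exact this ▸ hv
  · intro h
    exact ⟨w, h, rfl⟩

theorem cw_inj (E : Un W U) : Function.Injective E.cw := by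
  intro a b h
  rw [← E.dw_cw a, h, E.dw_cw]

theorem ran_countable (E : Un W U) (u : U) : (Ran E u).Countable := Set.countable_range _

theorem ran_enc (E : Un W U) (e : ℕ → U) : Ran E (E.enc e) = Set.range e := by
  unfold Ran
  rw [E.dec_enc]

theorem subset_wcl [TopologicalSpace W] (A : Set W) : A ⊆ wcl A := by
  intro w hw
  exact ⟨{w}, by simpa using hw, Set.countable_singleton w, subset_closure rfl⟩

theorem wcl_mono [TopologicalSpace W] {A A' : Set W} (h : A ⊆ A') : wcl A ⊆ wcl A' := by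
  rintro w ⟨B, h1, h2, h3⟩
  exact ⟨B, h1.trans h, h2, h3⟩

theorem wcl_wcl [TopologicalSpace W] (A : Set W) : wcl (wcl A) ⊆ wcl A := by
  classical
  rintro w ⟨B, h1, h2, h3⟩
  have hc : ∀ b : W, ∃ C ⊆ A, C.Countable ∧ (b ∈ B → b ∈ closure C) := by
    intro b
    by_cases hb : b ∈ B
    · obtain ⟨C, hC1, hC2, hC3⟩ := h1 hb
      exact ⟨C, hC1, hC2, fun _ => hC3⟩
    · exact ⟨∅, by simp, Set.countable_empty, fun h => absurd h hb⟩
  choose C hC1 hC2 hC3 using hc
  refine ⟨⋃ b ∈ B, C b, Set.iUnion₂_subset fun b _ => hC1 b, h2.biUnion fun b _ => hC2 b, ?_⟩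
  have h4 : B ⊆ closure (⋃ b ∈ B, C b) := by
    intro b hb
    exact closure_mono (Set.subset_biUnion_of_mem (u := C) hb) (hC3 b hb)
  exact closure_minimal h4 isClosed_closure h3

theorem closure_subset_wcl [TopologicalSpace W] {A B : Set W} (h : B ⊆ A) (hB : B.Countable) :
    closure B ⊆ wcl A := fun _ hw => ⟨B, h, hB, hw⟩

/-- members of `𝓗` are large also up to supersets -/
theorem MaxF.up [TopologicalSpace W] {r : W → Om} {𝓗 : Set (Set W)} (h : MaxF r 𝓗) {H A : Set W}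
    (hH : H ∈ 𝓗) (hHA : H ⊆ A) (hA : wcl A ⊆ A) : A ∈ 𝓗 := by
  by_contra hcon
  obtain ⟨H', hH', α, hα⟩ := h.max A hA hcon
  obtain ⟨w, hw, hαw⟩ := h.unb _ (h.inter H hH H' hH') α
  exact absurd (hα w hw.2 (hHA hw.1)) (not_le.2 hαw)

variable [TopologicalSpace W] {E : Un W U} {r : W → Om} {𝓗 : Set (Set W)} {B : ι → Set W}

theorem Mdl.ran {N : Set U} (h : Mdl E r 𝓗 N) {u : U} (hu : u ∈ N) : Ran E u ⊆ N := by
  rintro _ ⟨n, rfl⟩
  exact h.dec u hu n

theorem below_trans {s t v : U × W} (hv : Mdl E r 𝓗 (Ran E v.1)) (h1 : Below E s t)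
    (h2 : Below E t v) : Below E s v :=
  ⟨hv.ran h2.1 h1.1, hv.ran h2.1 h1.2⟩

theorem below_rank {s t : U × W} (ht : KN E r 𝓗 (Ran E t.1) t.2) (h : Below E s t) :
    r s.2 < r t.2 := ht.1 _ h.2

/-- nodes with points of equal rank are equal -/
theorem Good.eq_of_rank {p : Cnd U W ι} (h : Good E r 𝓗 B p) {s t : U × W} (hs : s ∈ p.nodes)
    (ht : t ∈ p.nodes) (hE : r s.2 = r t.2) : s = t := by
  rcases h.chain s hs t ht with h1 | h1 | h1
  · exact h1
  · exact absurd hE (below_rank (h.mdl t ht).2 h1).ne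
  · exact absurd hE.symm (below_rank (h.mdl s hs).2 h1).ne

/-- below is the order by rank -/
theorem Good.below_iff {p : Cnd U W ι} (h : Good E r 𝓗 B p) {s t : U × W} (hs : s ∈ p.nodes)
    (ht : t ∈ p.nodes) : Below E s t ↔ r s.2 < r t.2 := by
  constructor
  · exact below_rank (h.mdl t ht).2
  · intro hlt
    rcases h.chain s hs t ht with h1 | h1 | h1
    · rw [h1] at hlt
      exact absurd hlt (lt_irrefl _)
    · exact h1
    · exact absurd (below_rank (h.mdl s hs).2 h1) (not_lt.2 hlt.le)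

/-- the sections by a list of points -/
def secs (Φ : Set (List W)) (l : List W) : Set (List W) := {l' | l ++ l' ∈ Φ}

omit [TopologicalSpace W] in
theorem pts_secs (Φ : Set (List W)) (l : List W) : pts (secs Φ l) = {w | l ++ [w] ∈ Φ} := rfl

theorem mdl_secs {N : Set U} (h : Mdl E r 𝓗 N) (l : List W) : ∀ Φ : Set (List W), E.cs Φ ∈ N →
    (∀ w ∈ l, E.cw w ∈ N) → E.cs (secs Φ l) ∈ N := by
  induction l with
  | nil =>
    intro Φ hΦ _
    exact hΦ
  | cons w l ih =>
    intro Φ hΦ hl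
    exact ih (sec Φ w) (h.sec Φ w hΦ (hl w (by simp))) fun v hv => hl v (by simp [hv])

theorem mdl_qhn {N : Set U} (h : Mdl E r 𝓗 N) (n : ℕ) : ∀ Φ : Set (List W), E.cs Φ ∈ N →
    E.cs ((qh 𝓗)^[n] Φ) ∈ N := by
  induction n with
  | zero =>
    intro Φ hΦ
    exact hΦ
  | succ n ih =>
    intro Φ hΦ
    exact ih _ (h.qh Φ hΦ)

end

end Pool.Agent.H58.PF
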