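import Pool.Agent.H58.PF.Stmt
import Pool.Agent.H64.AG.Fin

/-!
# PFA and compact subspaces of function spaces of Lindelof spaces (MP_bff2e5_gt)

`W` is a perfect preimage of `ω₁`, `r : W → Om` the map. The poset of finite chains of countable
models with points adds a copy of `ω₁`.
-/

set_option autoImplicit false

open Topology Cardinal

namespace Pool.Agent.H58.PF

open Pool.Agent.H20.SL Pool.Agent.H64.AK Pool.Agent.H64.AG Pool.Agent.H60.CP

/-! ## Perfect preimages of `ω₁` -/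

/-- `r` is a map of `W` to the countable ordinals; the sets `{w | r w ≤ α}` are compact and clopen,
and `r` is unbounded. -/
structure Perf {W : Type} [TopologicalSpace W] (r : W → Om) : Prop where
  opn : ∀ α, IsOpen {w | r w ≤ α}
  clo : ∀ α, IsClosed {w | r w ≤ α}
  cpt : ∀ α, IsCompact {w | r w ≤ α}
  unb : ∀ α, ∃ w, α < r w

/-- the union of the closures of the countable subsets of `A` -/
def wcl {W : Type} [TopologicalSpace W] (A : Set W) : Set W :=
  {w | ∃ B ⊆ A, B.Countable ∧ w ∈ closure B}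

/-- `𝓗` is a maximal filter of `ω`-closed unbounded sets. -/
structure MaxF {W : Type} [TopologicalSpace W] (r : W → Om) (𝓗 : Set (Set W)) : Prop where
  wc : ∀ H ∈ 𝓗, wcl H ⊆ H
  inter : ∀ H ∈ 𝓗, ∀ H' ∈ 𝓗, H ∩ H' ∈ 𝓗
  uni : Set.univ ∈ 𝓗
  unb : ∀ H ∈ 𝓗, ∀ α, ∃ w ∈ H, α < r w
  max : ∀ A : Set W, wcl A ⊆ A → A ∉ 𝓗 → ∃ H ∈ 𝓗, ∃ α, ∀ w ∈ H, w ∈ A → r w ≤ α

/-! ## Codes -/

/-- The elements of `U` code elements of `W`, sets of lists of elements of `W`, and sequences of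
elements of `U`. -/
structure Un (W U : Type) where
  /-- code of a point -/
  cw : W → U
  /-- code of a set of lists -/
  cs : Set (List W) → U
  /-- the decoded point -/
  dw : U → W
  /-- the decoded set of lists -/
  ds : U → Set (List W)
  /-- the decoded sequence -/
  dec : U → ℕ → U
  /-- code of a sequence -/
  enc : (ℕ → U) → U
  dw_cw : ∀ w, dw (cw w) = w
  ds_cs : ∀ Φ, ds (cs Φ) = Φ
  dec_enc : ∀ e, dec (enc e) = e

/-- the points `w` such that `[w]` is in `Φ` -/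
def pts {W : Type} (Φ : Set (List W)) : Set W := {w | [w] ∈ Φ}

/-- the set of the lists with one element, which is in `H` -/
def sgl {W : Type} (H : Set W) : Set (List W) := {l | ∃ w ∈ H, l = [w]}

/-- section of a set of lists -/
def sec {W : Type} (Φ : Set (List W)) (w : W) : Set (List W) := {l | w :: l ∈ Φ}

/-- the lists which have `𝓗`-many extensions by one element in `Φ` -/
def qh {W : Type} [TopologicalSpace W] (𝓗 : Set (Set W)) (Φ : Set (List W)) : Set (List W) :=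
  {l | wcl {w | l ++ [w] ∈ Φ} ∈ 𝓗}

/-! ## Models -/

/-- The set `N` of codes is closed under the operations needed. -/
structure Mdl {W U : Type} [TopologicalSpace W] (E : Un W U) (r : W → Om) (𝓗 : Set (Set W))
    (N : Set U) : Prop where
  sec : ∀ Φ w, E.cs Φ ∈ N → E.cw w ∈ N → E.cs (sec Φ w) ∈ N
  qh : ∀ Φ, E.cs Φ ∈ N → E.cs (qh 𝓗 Φ) ∈ N
  bd : ∀ Φ, E.cs Φ ∈ N → wcl (pts Φ) ∉ 𝓗 → ∃ H ∈ 𝓗, E.cs (sgl H) ∈ N ∧
    ∃ b, E.cw b ∈ N ∧ ∀ w ∈ H, w ∈ wcl (pts Φ) → r w ≤ r b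
  wit : ∀ l : List U, (∀ a ∈ l, a ∈ N) → ∃ w, E.cw w ∈ N ∧ ∀ a ∈ l,
    (∀ b, a = E.cw b → r b < r w) ∧ ∀ Φ, a = E.cs Φ → wcl (pts Φ) ∈ 𝓗 → w ∈ wcl (pts Φ)
  app : ∀ Φ w, E.cs Φ ∈ N → E.cw w ∈ N → w ∈ wcl (pts Φ) →
    w ∈ closure {v | v ∈ pts Φ ∧ E.cw v ∈ N}
  dec : ∀ a ∈ N, ∀ n, E.dec a n ∈ N

/-- The point `x` is above all points of `N`, and it is a limit of points in `A` and `N` for all
`𝓗`-large sets `A` in `N`. -/
def KN {W U : Type} [TopologicalSpace W] (E : Un W U) (r : W → Om) (𝓗 : Set (Set W))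
    (N : Set U) (x : W) : Prop :=
  (∀ w, E.cw w ∈ N → r w < r x) ∧
    ∀ Φ, E.cs Φ ∈ N → wcl (pts Φ) ∈ 𝓗 → x ∈ closure {v | v ∈ pts Φ ∧ E.cw v ∈ N}

/-- the set coded by `u` -/
def Ran {W U : Type} (E : Un W U) (u : U) : Set U := Set.range (E.dec u)

/-- both components of the node are in `N` -/
def NIn {W U : Type} (E : Un W U) (N : Set U) (t : U × W) : Prop := t.1 ∈ N ∧ E.cw t.2 ∈ N

/-- the node `s` is in the model of the node `t` -/
def Below {W U : Type} (E : Un W U) (s t : U × W) : Prop := NIn E (Ran E t.1) s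

/-! ## The poset -/

/-- Nodes `(u, x)`: the code of a model and a point. Promises `(b, x, i)`: all points between `b`
and `x` are in the `i`-th basic open set. -/
structure Cnd (U W ι : Type) where
  nodes : Finset (U × W)
  prom : Finset (Option W × W × ι)

instance (U W ι : Type) : PartialOrder (Cnd U W ι) where
  le q p := p.nodes ⊆ q.nodes ∧ p.prom ⊆ q.prom
  le_refl p := ⟨Finset.Subset.refl _, Finset.Subset.refl _⟩
  le_trans r q p hrq hqp := ⟨hqp.1.trans hrq.1, hqp.2.trans hrq.2⟩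
  le_antisymm p q h1 h2 := by
    cases p
    cases q
    simp only [Cnd.mk.injEq]
    exact ⟨Finset.Subset.antisymm h2.1 h1.1, Finset.Subset.antisymm h2.2 h1.2⟩

theorem Cnd.le_def {U W ι : Type} (q p : Cnd U W ι) :
    q ≤ p ↔ p.nodes ⊆ q.nodes ∧ p.prom ⊆ q.prom := Iff.rfl

/-- `y` is above `b`; every point is above `none` -/
def Abv {W : Type} (r : W → Om) (o : Option W) (y : W) : Prop := ∀ b, o = some b → r b < r y

/-- the conditions -/
structure Good {W U ι : Type} [TopologicalSpace W] (E : Un W U) (r : W → Om) (𝓗 : Set (Set W))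
    (B : ι → Set W) (p : Cnd U W ι) : Prop where
  mdl : ∀ t ∈ p.nodes, Mdl E r 𝓗 (Ran E t.1) ∧ KN E r 𝓗 (Ran E t.1) t.2
  chain : ∀ s ∈ p.nodes, ∀ t ∈ p.nodes, s = t ∨ Below E s t ∨ Below E t s
  pnt : ∀ u ∈ p.prom, (∃ t ∈ p.nodes, t.2 = u.2.1) ∧ u.2.1 ∈ B u.2.2
  bot : ∀ u ∈ p.prom, ∀ b, u.1 = some b → (∃ t ∈ p.nodes, t.2 = b) ∧ r b < r u.2.1
  keep : ∀ u ∈ p.prom, ∀ t ∈ p.nodes, Abv r u.1 t.2 → r t.2 < r u.2.1 → t.2 ∈ B u.2.2

/-- the poset -/
abbrev PP {W U ι : Type} [TopologicalSpace W] (E : Un W U) (r : W → Om) (𝓗 : Set (Set W))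
    (B : ι → Set W) : Type := {p : Cnd U W ι // Good E r 𝓗 B p}

/-- `B` is a base of the topology of `W`. -/
def Base {W ι : Type} [TopologicalSpace W] (B : ι → Set W) : Prop :=
  (∀ i, IsOpen (B i)) ∧ ∀ (x : W) (V : Set W), IsOpen V → x ∈ V → ∃ i, x ∈ B i ∧ B i ⊆ V

/-- The set `C` is a copy of `ω₁`: `r` is injective and unbounded on `C`, and `C` is continuous. -/
structure Copy {W : Type} [TopologicalSpace W] (r : W → Om) (C : Set W) : Prop where
  inj : ∀ x ∈ C, ∀ y ∈ C, r x = r y → x = y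
  unb : ∀ α, ∃ x ∈ C, α < r x
  cont : ∀ x ∈ C, ∀ V : Set W, IsOpen V → x ∈ V → ∃ o : Option W,
    (∀ b, o = some b → b ∈ C ∧ r b < r x) ∧ ∀ y ∈ C, Abv r o y → r y < r x → y ∈ V

/-- the nodes of `p` are those of `a` and further nodes above them, whose points are the elements
of the list `l` in increasing order -/
def Rlz {W U ι : Type} (E : Un W U) (p : Cnd U W ι) (a : List (U × W)) (l : List W) : Prop :=
  ∃ c : List (U × W), l = c.map Prod.snd ∧ c.Pairwise (Below E) ∧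
    (∀ t, t ∈ p.nodes ↔ t ∈ a ∨ t ∈ c) ∧ ∀ s ∈ a, ∀ t ∈ c, Below E s t

/-- the set of the lists of points which are realised above `a` in `D` -/
def Real {W U ι : Type} [TopologicalSpace W] {E : Un W U} {r : W → Om} {𝓗 : Set (Set W)}
    {B : ι → Set W} (D : Set (PP E r 𝓗 B)) (a : List (U × W)) : Set (List W) :=
  {l | ∃ p ∈ D, Rlz E p.1 a l}

end Pool.Agent.H58.PF
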