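import Pool.Agent.H58.PF.Targets

/-!
# Module PRP: the poset is proper
-/

set_option autoImplicit false

open Topology Cardinal

namespace Pool.Agent.H58.PF

open Pool.Agent.H20.SL Pool.Agent.H64.AK Pool.Agent.H64.AG Pool.Agent.H60.CP

section
variable {W U Q : Type}

/-- the part in `U` -/
def uPart (u0 : U) : Q ⊕ U → U
  | Sum.inl _ => u0
  | Sum.inr u => u

/-- a list of codes read as a list of nodes -/
def pairs (E : Un W U) : List U → List (U × W)
  | u :: v :: l => (u, E.dw v) :: pairs E l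
  | _ => []

/-- the list of codes of a list of nodes -/
def unpairs (E : Un W U) : List (U × W) → List U
  | [] => []
  | t :: l => t.1 :: E.cw t.2 :: unpairs E l

theorem pairs_unpairs (E : Un W U) (a : List (U × W)) : pairs E (unpairs E a) = a := by
  induction a with
  | nil => rfl
  | cons t l ih =>
    show (t.1, E.dw (E.cw t.2)) :: pairs E (unpairs E l) = t :: l
    rw [ih, E.dw_cw]

theorem mem_unpairs (E : Un W U) (N : Set U) (a : List (U × W)) (h : ∀ t ∈ a, NIn E N t) :
    ∀ u ∈ unpairs E a, u ∈ N := by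
  induction a with
  | nil => intro u hu; simp [unpairs] at hu
  | cons t l ih =>
    intro u hu
    simp only [unpairs, List.mem_cons] at hu
    rcases hu with rfl | rfl | hu
    · exact (h t (by simp)).1
    · exact (h t (by simp)).2
    · exact ih (fun t ht => h t (by simp [ht])) u hu

end

theorem prp (hPRJ : T_PRJ) (hMDL : T_MDL) (hTOP : T_TOP) (hRFL : T_RFL) : T_PRP := by
  classical
  intro W U ι _ E r 𝓗 B hB hr hH
  obtain ⟨F, hF⟩ := hMDL W U E r 𝓗 hr hH
  let P := PP E r 𝓗 B
  let u0 : U := E.cs ∅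
  let p0 : P := ⟨⟨∅, ∅⟩, ⟨by simp, by simp, by simp, by simp, by simp⟩⟩
  -- realizers
  have hreal : ∀ (D : Set P) (a : List (U × W)) (l : List W), ∃ p : P,
      l ∈ Real D a → p ∈ D ∧ Rlz E p.1 a l := by
    intro D a l
    by_cases h : l ∈ Real D a
    · obtain ⟨p, hp, hp'⟩ := h
      exact ⟨p, fun _ => ⟨hp, hp'⟩⟩
    · exact ⟨p0, fun h' => absurd h' h⟩
  choose rz hrz using hreal
  -- nodes of conditions
  let nd : P → ℕ → U × W := fun p n => p.1.nodes.toList.getD n (u0, E.dw u0)
  have hnd : ∀ (p : P), ∀ t ∈ p.1.nodes, ∃ n, nd p n = t := by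
    intro p t ht
    obtain ⟨n, hn, hE⟩ := List.getElem_of_mem (Finset.mem_toList.2 ht)
    refine ⟨n, ?_⟩
    show p.1.nodes.toList.getD n (u0, E.dw u0) = t
    rw [List.getD_eq_getElem _ _ hn, hE]
  let G : ℕ → List ((P ⊕ Set P) ⊕ U) → (P ⊕ Set P) ⊕ U := fun m l =>
    match l with
    | Sum.inl (Sum.inr D) :: l =>
      if m.unpair.1 = 0 then Sum.inr (E.cs (Real D (pairs E (l.map (uPart u0)))))
      else Sum.inl (Sum.inl (rz D (pairs E ((l.map (uPart u0)).take m.unpair.2))
        (((l.map (uPart u0)).drop m.unpair.2).map E.dw)))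
    | Sum.inl (Sum.inl p) :: _ =>
      if m.unpair.1 = 0 then Sum.inr (nd p m.unpair.2).1 else Sum.inr (E.cw (nd p m.unpair.2).2)
    | l => Sum.inr (F m (l.map (uPart u0)))
  have hmapu : ∀ l : List U, (l.map (Sum.inr : U → (P ⊕ Set P) ⊕ U)).map (uPart u0) = l := by
    intro l
    rw [List.map_map]
    exact List.map_id l
  refine hPRJ P ((P ⊕ Set P) ⊕ U) Sum.inl Sum.inl_injective G ?_
  intro M hMc hMG p hpM
  let N : Set U := Sum.inr ⁻¹' M
  have hNc : N.Countable := hMc.preimage Sum.inr_injective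
  have hNF : ClosedUnder F N := by
    intro n l hl
    have h1 := hMG n (l.map Sum.inr) (by
      intro x hx
      obtain ⟨u, hu, rfl⟩ := List.mem_map.1 hx
      exact hl u hu)
    have h2 : G n (l.map Sum.inr) = Sum.inr (F n l) := by
      cases l with
      | nil => rfl
      | cons u l =>
        show Sum.inr (F n ((Sum.inr u :: l.map Sum.inr : List ((P ⊕ Set P) ⊕ U)).map
          (uPart u0))) = _
        have h3 := hmapu (u :: l)
        rw [List.map_cons] at h3
        rw [h3]
    rw [h2] at h1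
    exact h1
  have hN := hF N hNF
  have hnodes : ∀ p : P, (Sum.inl (Sum.inl p) : (P ⊕ Set P) ⊕ U) ∈ M →
      ∀ t ∈ p.1.nodes, NIn E N t := by
    intro p hp t ht
    obtain ⟨n, hn⟩ := hnd p t ht
    constructor
    · have h1 := hMG (Nat.pair 0 n) [Sum.inl (Sum.inl p)] (by simpa using hp)
      have h2 : G (Nat.pair 0 n) [Sum.inl (Sum.inl p)] = Sum.inr t.1 := by
        simp only [G, Nat.unpair_pair, if_true]
        rw [hn]
      rw [h2] at h1
      exact h1
    · have h1 := hMG (Nat.pair 1 n) [Sum.inl (Sum.inl p)] (by simpa using hp)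
      have h2 : G (Nat.pair 1 n) [Sum.inl (Sum.inl p)] = Sum.inr (E.cw t.2) := by
        simp only [G, Nat.unpair_pair, one_ne_zero, if_false]
        rw [hn]
      rw [h2] at h1
      exact h1
  obtain ⟨q, hqp, t₀, ht₀, hRan⟩ := hTOP W U ι E r 𝓗 B hr hH p N hNc hN (hnodes p hpM)
  refine ⟨q, hqp, ?_⟩
  intro D hDM hD s1 hs1
  obtain ⟨s, hsD, hs⟩ := hD s1
  have ht₀s : t₀ ∈ s.1.nodes := (hs.trans hs1).1 ht₀
  have hDM' : (Sum.inl (Sum.inr D) : (P ⊕ Set P) ⊕ U) ∈ M := hDM
  have hlistM : ∀ l : List U, (∀ u ∈ l, u ∈ N) →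
      ∀ x ∈ (Sum.inl (Sum.inr D) :: l.map Sum.inr : List ((P ⊕ Set P) ⊕ U)), x ∈ M := by
    intro l hl x hx
    rcases List.mem_cons.1 hx with rfl | hx
    · exact hDM'
    · obtain ⟨u, hu, rfl⟩ := List.mem_map.1 hx
      exact hl u hu
  obtain ⟨d, hdD, hdM, c, hcs, hcd⟩ := hRFL W U ι E r 𝓗 B hB hH D
    {p | (Sum.inl (Sum.inl p) : (P ⊕ Set P) ⊕ U) ∈ M} s t₀ hsD ht₀s (by
      intro a ha
      have ha' : ∀ t ∈ a, NIn E N t := by
        intro t ht
        rw [← hRan]
        exact ha t ht
      rw [hRan]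
      constructor
      · have h1 := hMG (Nat.pair 0 0) (Sum.inl (Sum.inr D) :: (unpairs E a).map Sum.inr)
          (hlistM _ (mem_unpairs E N a ha'))
        have h2 : G (Nat.pair 0 0) (Sum.inl (Sum.inr D) :: (unpairs E a).map Sum.inr) =
            Sum.inr (E.cs (Real D a)) := by
          simp only [G, Nat.unpair_pair, if_true]
          rw [hmapu, pairs_unpairs]
        rw [h2] at h1
        exact h1
      · intro l hl hlN
        have h1 := hMG (Nat.pair 1 (unpairs E a).length)
          (Sum.inl (Sum.inr D) :: (unpairs E a ++ l.map E.cw).map Sum.inr) (hlistM _ (by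
            intro u hu
            rcases List.mem_append.1 hu with hu | hu
            · exact mem_unpairs E N a ha' u hu
            · obtain ⟨w, hw, rfl⟩ := List.mem_map.1 hu
              exact hlN w hw))
        have h2 : G (Nat.pair 1 (unpairs E a).length)
            (Sum.inl (Sum.inr D) :: (unpairs E a ++ l.map E.cw).map Sum.inr) =
            Sum.inl (Sum.inl (rz D a l)) := by
          simp only [G, Nat.unpair_pair, one_ne_zero, if_false]
          rw [hmapu, List.take_left, List.drop_left, pairs_unpairs, List.map_map]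
          have h3 : l.map (E.dw ∘ E.cw) = l := by
            have h4 : (E.dw ∘ E.cw) = id := funext E.dw_cw
            rw [h4, List.map_id]
          rw [h3]
        rw [h2] at h1
        obtain ⟨h3, h4⟩ := hrz D a l hl
        exact ⟨_, h3, h1, h4⟩) (by
      intro p hp t ht
      have := hnodes p hp t ht
      rw [← hRan] at this
      exact this)
  exact ⟨d, hdD, hdM, c, hcs.trans hs, hcd⟩

end Pool.Agent.H58.PF
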