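import Pool.Agent.H58.PF.Targets

/-!
# Module RFL: reflection
-/

set_option autoImplicit false

open Topology Cardinal

namespace Pool.Agent.H58.PF

open Pool.Agent.H20.SL Pool.Agent.H64.AK Pool.Agent.H64.AG Pool.Agent.H60.CP

theorem rfl' (hLFT : T_LFT) (hDWN : T_DWN) (hSRT : T_SRT) (hAMA : T_AMA) : T_RFL := by
  classical
  intro W U ι _ E r 𝓗 B hB hH D M s t₀ hsD ht₀ hD hM
  have hsG := s.2
  -- the nodes below `t₀`
  let a : List (U × W) := (s.1.nodes.filter fun t => Below E t t₀).toList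
  have ha : ∀ t, t ∈ a ↔ t ∈ s.1.nodes ∧ Below E t t₀ := by
    intro t
    simp only [a, Finset.mem_toList, Finset.mem_filter]
  -- the other nodes
  obtain ⟨c, hc, hcp⟩ := hSRT (U × W) (fun t => r t.2)
    (s.1.nodes.filter fun t => r t₀.2 ≤ r t.2) (by
      intro v hv t ht hE
      exact hsG.eq_of_rank (Finset.mem_filter.1 hv).1 (Finset.mem_filter.1 ht).1 hE)
  have hc' : ∀ t, t ∈ c ↔ t ∈ s.1.nodes ∧ r t₀.2 ≤ r t.2 := by
    intro t
    rw [hc, Finset.mem_filter]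
  have hcB : c.Pairwise (Below E) := by
    refine List.Pairwise.imp_of_mem ?_ hcp
    intro v t hv ht hlt
    exact (hsG.below_iff ((hc' v).1 hv).1 ((hc' t).1 ht).1).2 hlt
  have hac : ∀ v ∈ a, ∀ t ∈ c, Below E v t := by
    intro v hv t ht
    obtain ⟨h1, h2⟩ := (ha v).1 hv
    obtain ⟨h3, h4⟩ := (hc' t).1 ht
    exact (hsG.below_iff h1 h3).2 ((below_rank (hsG.mdl t₀ ht₀).2 h2).trans_le h4)
  have hmem : ∀ t, t ∈ s.1.nodes ↔ t ∈ a ∨ t ∈ c := by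
    intro t
    constructor
    · intro ht
      rcases lt_or_ge (r t.2) (r t₀.2) with h | h
      · exact Or.inl ((ha t).2 ⟨ht, (hsG.below_iff ht ht₀).2 h⟩)
      · exact Or.inr ((hc' t).2 ⟨ht, h⟩)
    · rintro (h | h)
      · exact ((ha t).1 h).1
      · exact ((hc' t).1 h).1
  have haB : ∀ t ∈ a, Below E t t₀ := fun t ht => ((ha t).1 ht).2
  obtain ⟨hΦ, hrealize⟩ := hD a haB
  have hmemΦ : c.map Prod.snd ∈ Real D a := ⟨s, hsD, c, rfl, hcB, hmem, hac⟩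
  have hΦc : ∀ t ∈ c, E.cs (Real D a) ∈ Ran E t.1 := by
    intro t ht
    obtain ⟨h1, h2⟩ := (hc' t).1 ht
    rcases hsG.chain t₀ ht₀ t h1 with h | h | h
    · rw [← h]
      exact hΦ
    · exact (hsG.mdl t h1).1.ran h.1 hΦ
    · exact absurd (below_rank (hsG.mdl t₀ ht₀).2 h) (not_lt.2 h2)
  have hnil : [] ∈ (qh 𝓗)^[c.length] (Real D a) :=
    hLFT W U E r 𝓗 c _ hH (fun t ht => hsG.mdl t ((hc' t).1 ht).1) hcB hΦc hmemΦ
  -- the open set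
  let V : Set W := ⋂ u ∈ s.1.prom.filter fun u => Abv r u.1 t₀.2 ∧ r t₀.2 ≤ r u.2.1, B u.2.2
  have hV : IsOpen V := isOpen_biInter_finset fun u _ => hB u.2.2
  have hV' : ∀ w ∈ V, ∀ u ∈ s.1.prom, Abv r u.1 t₀.2 → r t₀.2 ≤ r u.2.1 → w ∈ B u.2.2 := by
    intro w hwV u hu h1 h2
    exact Set.mem_iInter₂.1 hwV u (Finset.mem_filter.2 ⟨hu, h1, h2⟩)
  have hxV : t₀.2 ∈ V := by
    refine Set.mem_iInter₂.2 fun u hu => ?_
    obtain ⟨hu, h1, h2⟩ := Finset.mem_filter.1 hu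
    rcases h2.lt_or_eq with h3 | h3
    · exact hsG.keep u hu t₀ ht₀ h1 h3
    · obtain ⟨⟨v, hv, hvE⟩, h4⟩ := hsG.pnt u hu
      have h5 : t₀ = v := hsG.eq_of_rank ht₀ hv (by rw [hvE]; exact h3)
      rw [h5, hvE]
      exact h4
  obtain ⟨l, hl, hlV⟩ := hDWN W U E r 𝓗 (Ran E t₀.1) t₀.2 c.length _ V (hsG.mdl t₀ ht₀).1
    (hsG.mdl t₀ ht₀).2 hΦ hnil hV hxV
  obtain ⟨p, hpD, hpM, c', hlc, hc'B, hpm, hac'⟩ := hrealize l hl fun w hw => (hlV w hw).2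
  refine ⟨p, hpD, hpM, hAMA W U ι E r 𝓗 B s p t₀ ht₀ (hM p hpM) ?_ ?_⟩
  · intro t ht hb
    exact (hpm t).2 (Or.inl ((ha t).2 ⟨ht, hb⟩))
  · intro w hw hws
    rcases (hpm w).1 hw with h | h
    · exact absurd ((ha w).1 h).1 hws
    · refine ⟨fun v hv hb => hac' v ((ha v).2 ⟨hv, hb⟩) w h, ?_⟩
      refine hV' w.2 (hlV w.2 ?_).1
      rw [hlc]
      exact List.mem_map_of_mem h

end Pool.Agent.H58.PF
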