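import Mathlib

/-!
# The proper forcing axiom
-/

set_option autoImplicit false

open Cardinal

namespace Pool.Agent.H58.PF

/-- `D` is dense in `P`. -/
def Dns {P : Type} [PartialOrder P] (D : Set P) : Prop := ∀ p : P, ∃ q ∈ D, q ≤ p

/-- `M` is closed under the functions `F 0, F 1, ...` of finite sequences. -/
def ClosedUnder {X : Type} (F : ℕ → List X → X) (M : Set X) : Prop :=
  ∀ (n : ℕ) (l : List X), (∀ x ∈ l, x ∈ M) → F n l ∈ M

/-- `q` is a generic condition for `M`: for every dense set `D` in `M`, the conditions in `D` and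
`M` are predense below `q`. -/
def Generic {P : Type} [PartialOrder P] (M : Set (P ⊕ Set P)) (q : P) : Prop :=
  ∀ D : Set P, Sum.inr D ∈ M → Dns D → ∀ r ≤ q, ∃ d ∈ D, Sum.inl d ∈ M ∧ ∃ c, c ≤ r ∧ c ≤ d

/-- The poset `P` is proper: there are countably many finitary functions on `P ∪ 𝒫(P)` such that for
every countable set `M` closed under them every condition in `M` has a generic extension. -/
def Proper (P : Type) [PartialOrder P] : Prop :=
  ∃ F : ℕ → List (P ⊕ Set P) → P ⊕ Set P, ∀ M : Set (P ⊕ Set P), M.Countable → ClosedUnder F M →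
    ∀ p, Sum.inl p ∈ M → ∃ q ≤ p, Generic M q

/-- The proper forcing axiom: for every proper poset and every family of at most `ℵ₁` dense sets
there is a filter which meets all of them. -/
def PFA : Prop := ∀ (P : Type) [PartialOrder P] [Nonempty P], Proper P →
  ∀ (ι : Type) (D : ι → Set P), #ι ≤ ℵ₁ → (∀ i, Dns (D i)) →
    ∃ G : Set P, G.Nonempty ∧ (∀ a ∈ G, ∀ b : P, a ≤ b → b ∈ G) ∧
      (∀ a ∈ G, ∀ b ∈ G, ∃ c ∈ G, c ≤ a ∧ c ≤ b) ∧ ∀ i, (D i ∩ G).Nonempty

end Pool.Agent.H58.PF
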