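import Pool.Agent.H58.PF.Basic

/-!
# Targets of the board pf_modules (MP_bff2e5_gt)
-/

set_option autoImplicit false

open Topology Cardinal

namespace Pool.Agent.H58.PF

open Pool.Agent.H20.SL Pool.Agent.H64.AK Pool.Agent.H64.AG Pool.Agent.H60.CP

/-- CCP: the proper forcing axiom implies Martin's axiom for `ℵ₁` dense sets -/
def T_CCP : Prop := PFA → MA1

/-- CLO: closed sets -/
def T_CLO : Prop := ∀ (X : Type) (F : ℕ → List X → X) (S : Set X), S.Countable →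
  ∃ N, S ⊆ N ∧ N.Countable ∧ ClosedUnder F N

/-- PRJ: properness can be tested with functions on a larger set -/
def T_PRJ : Prop := ∀ (P X : Type) [PartialOrder P] (j : P ⊕ Set P → X), Function.Injective j →
  ∀ G : ℕ → List X → X,
  (∀ M : Set X, M.Countable → ClosedUnder G M → ∀ p : P, j (Sum.inl p) ∈ M →
    ∃ q ≤ p, Generic (j ⁻¹' M) q) → Proper P

/-- UNI: universes of codes exist -/
def T_UNI : Prop := ∀ (W : Type) [Nonempty W], ∃ U : Type, Nonempty (Un W U)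

/-- ZOR: maximal filters of `ω`-closed unbounded sets exist -/
def T_ZOR : Prop := ∀ (W : Type) [TopologicalSpace W] (r : W → Om), Perf r → ∃ 𝓗, MaxF r 𝓗

/-- MDL: sets closed under suitable functions are models -/
def T_MDL : Prop := ∀ (W U : Type) [TopologicalSpace W] (E : Un W U) (r : W → Om)
  (𝓗 : Set (Set W)), Perf r → MaxF r 𝓗 →
  ∃ F : ℕ → List U → U, ∀ N, ClosedUnder F N → Mdl E r 𝓗 N

/-- KNE: existence of the point above a countable model -/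
def T_KNE : Prop := ∀ (W U : Type) [TopologicalSpace W] (E : Un W U) (r : W → Om)
  (𝓗 : Set (Set W)) (N : Set U), Perf r → MaxF r 𝓗 → N.Countable → Mdl E r 𝓗 N →
  ∃ x, KN E r 𝓗 N x

/-- KNM: the sets of the model which contain the point above the model are large -/
def T_KNM : Prop := ∀ (W U : Type) [TopologicalSpace W] (E : Un W U) (r : W → Om)
  (𝓗 : Set (Set W)) (N : Set U) (x : W) (Φ : Set (List W)), MaxF r 𝓗 → N.Countable →
  Mdl E r 𝓗 N → KN E r 𝓗 N x → E.cs Φ ∈ N → x ∈ pts Φ → wcl (pts Φ) ∈ 𝓗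

/-- LFT: from the points above the models back to the empty list -/
def T_LFT : Prop := ∀ (W U : Type) [TopologicalSpace W] (E : Un W U) (r : W → Om)
  (𝓗 : Set (Set W)) (c : List (U × W)) (Φ : Set (List W)), MaxF r 𝓗 →
  (∀ t ∈ c, Mdl E r 𝓗 (Ran E t.1) ∧ KN E r 𝓗 (Ran E t.1) t.2) → c.Pairwise (Below E) →
  (∀ t ∈ c, E.cs Φ ∈ Ran E t.1) → c.map Prod.snd ∈ Φ → [] ∈ (qh 𝓗)^[c.length] Φ

/-- DWN: from the empty list to points in the model -/
def T_DWN : Prop := ∀ (W U : Type) [TopologicalSpace W] (E : Un W U) (r : W → Om)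
  (𝓗 : Set (Set W)) (N : Set U) (x : W) (n : ℕ) (Φ : Set (List W)) (V : Set W),
  Mdl E r 𝓗 N → KN E r 𝓗 N x → E.cs Φ ∈ N → [] ∈ (qh 𝓗)^[n] Φ → IsOpen V → x ∈ V →
  ∃ l ∈ Φ, ∀ w ∈ l, w ∈ V ∧ E.cw w ∈ N

/-- SRT: finite sets can be listed in increasing order -/
def T_SRT : Prop := ∀ (α : Type) (f : α → Om) (A : Finset α),
  (∀ s ∈ A, ∀ t ∈ A, f s = f t → s = t) →
  ∃ c : List α, (∀ t, t ∈ c ↔ t ∈ A) ∧ c.Pairwise fun s t => f s < f t

/-- TOP: adding a node on top -/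
def T_TOP : Prop := ∀ (W U ι : Type) [TopologicalSpace W] (E : Un W U) (r : W → Om)
  (𝓗 : Set (Set W)) (B : ι → Set W), Perf r → MaxF r 𝓗 → ∀ (p : PP E r 𝓗 B) (N : Set U),
  N.Countable → Mdl E r 𝓗 N → (∀ t ∈ p.1.nodes, NIn E N t) →
  ∃ q ≤ p, ∃ t ∈ q.1.nodes, Ran E t.1 = N

/-- AMA: amalgamation of `s` with a condition in the model of a node of `s` -/
def T_AMA : Prop := ∀ (W U ι : Type) [TopologicalSpace W] (E : Un W U) (r : W → Om)
  (𝓗 : Set (Set W)) (B : ι → Set W) (s p : PP E r 𝓗 B) (t₀ : U × W), t₀ ∈ s.1.nodes →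
  (∀ t ∈ p.1.nodes, Below E t t₀) → (∀ t ∈ s.1.nodes, Below E t t₀ → t ∈ p.1.nodes) →
  (∀ w ∈ p.1.nodes, w ∉ s.1.nodes → (∀ v ∈ s.1.nodes, Below E v t₀ → Below E v w) ∧
    ∀ u ∈ s.1.prom, Abv r u.1 t₀.2 → r t₀.2 ≤ r u.2.1 → w.2 ∈ B u.2.2) →
  ∃ c, c ≤ s ∧ c ≤ p

/-- RFL: reflection of a condition into the model of one of its nodes -/
def T_RFL : Prop := ∀ (W U ι : Type) [TopologicalSpace W] (E : Un W U) (r : W → Om)
  (𝓗 : Set (Set W)) (B : ι → Set W), (∀ i, IsOpen (B i)) → MaxF r 𝓗 →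
  ∀ (D M : Set (PP E r 𝓗 B)) (s : PP E r 𝓗 B) (t₀ : U × W), s ∈ D → t₀ ∈ s.1.nodes →
  (∀ a : List (U × W), (∀ t ∈ a, Below E t t₀) → E.cs (Real D a) ∈ Ran E t₀.1 ∧
    ∀ l ∈ Real D a, (∀ w ∈ l, E.cw w ∈ Ran E t₀.1) → ∃ p ∈ D, p ∈ M ∧ Rlz E p.1 a l) →
  (∀ p ∈ M, ∀ t ∈ p.1.nodes, Below E t t₀) →
  ∃ d ∈ D, d ∈ M ∧ ∃ c, c ≤ s ∧ c ≤ d

/-- PRP: the poset is proper -/
def T_PRP : Prop := ∀ (W U ι : Type) [TopologicalSpace W] (E : Un W U) (r : W → Om)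
  (𝓗 : Set (Set W)) (B : ι → Set W), (∀ i, IsOpen (B i)) → Perf r → MaxF r 𝓗 →
  Proper (PP E r 𝓗 B)

/-- DEN: the dense sets -/
def T_DEN : Prop := ∀ (W U ι : Type) [TopologicalSpace W] (E : Un W U) (r : W → Om)
  (𝓗 : Set (Set W)) (B : ι → Set W), Perf r → MaxF r 𝓗 →
  (∀ α : Om, Dns {p : PP E r 𝓗 B | ∃ t ∈ p.1.nodes, α < r t.2}) ∧
  ∀ (α : Om) (i : ι), Dns {p : PP E r 𝓗 B |
    (∃ t ∈ p.1.nodes, r t.2 = α ∧ (t.2 ∈ B i → ∃ o, (o, t.2, i) ∈ p.1.prom)) ∨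
    ∀ q ≤ p, ∀ t ∈ q.1.nodes, r t.2 ≠ α}

/-- GEN: the proper forcing axiom gives a copy of `ω₁` -/
def T_GEN : Prop := ∀ (W U ι : Type) [TopologicalSpace W] (E : Un W U) (r : W → Om)
  (𝓗 : Set (Set W)) (B : ι → Set W), Perf r → MaxF r 𝓗 → PFA → #ι ≤ ℵ₁ → Base B →
  ∃ C, Copy r C

/-- PER: perfect preimages -/
def T_PER : Prop := ∀ (F : Type) [TopologicalSpace F] [CompactSpace F] [T2Space F]
  (g : F → XT Om), Continuous g → Function.Surjective g →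
  ∃ r : {z // g z ≠ OnePoint.infty} → Om, Perf r ∧ ∀ w, g w.1 = inc (r w)

/-- OMN: uncountable sets of countable ordinals -/
def T_OMN : Prop := ∀ R : Set Om, ¬ R.Countable → ¬ InCpLindelof (XT R)

/-- EMB: from a copy of `ω₁` to the one-point compactification -/
def T_EMB : Prop := ∀ (Z : Type) [TopologicalSpace Z] [CompactSpace Z] [T2Space Z]
  (g : Z → XT Om), Continuous g → ∀ r : {z // g z ≠ OnePoint.infty} → Om,
  (∀ w, g w.1 = inc (r w)) → ∀ C, Copy r C →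
  ∃ R : Set Om, ¬ R.Countable ∧ ∃ e : XT R → Z, Continuous e ∧ Function.Injective e

/-- QUO: the quotient of small weight -/
def T_QUO : Prop := ∀ (X : Type) [TopologicalSpace X] [CompactSpace X] [T2Space X],
  InCpLindelof X → ¬ CT X → ∃ (Z : Type) (_ : TopologicalSpace Z) (g : Z → XT Om),
    CompactSpace Z ∧ T2Space Z ∧ InCpLindelof Z ∧ Continuous g ∧ Function.Surjective g ∧
    ∃ (ι : Type) (B : ι → Set Z), #ι ≤ ℵ₁ ∧ Base B

/-- FIN: the proper forcing axiom implies countable tightness -/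
def T_FIN : Prop := PFA → ∀ (X : Type) [TopologicalSpace X] [CompactSpace X], InCpLindelof X → CT X

end Pool.Agent.H58.PF
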